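import Mathlib
import Pool.Agent.N432.NonSpan

/-!
The extremal non-`h`-spanning subsets of the cyclic group of order `n`, when some divisor of `n` is
neither `0` nor `1` modulo `h`.
-/

set_option autoImplicit false

namespace Pool.Agent.Results.MP_ff195a_co.ResidueCase

open Pool.Agent.N432.NonSpan

/-- The `h`-fold sumset `hA` (repeated summands allowed). -/
def sumset {n : ℕ} (h : ℕ) (A : Finset (ZMod n)) : Set (ZMod n) :=
  {x | ∃ f : Fin h → ZMod n, (∀ i, f i ∈ A) ∧ ∑ i, f i = x}

/-- `v_1(n,h)`, the maximum of `(⌊(d-2)/h⌋+1)·(n/d)` over the divisors `d` of `n` (`/` on `ℤ` by a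
positive integer is the floor of the quotient). -/
noncomputable def v1 (n h : ℕ) : ℤ :=
  sSup {z : ℤ | ∃ d : ℕ, d ∣ n ∧ z = (((d : ℤ) - 2) / (h : ℤ) + 1) * ((n : ℤ) / (d : ℤ))}

theorem coef_eq {h d : ℕ} (hh : 3 ≤ h) : ((d : ℤ) - 2) / (h : ℤ) + 1 = (q h d : ℕ) := by
  have hhz : (h : ℤ) ≠ 0 := by
    have : (3 : ℤ) ≤ h := by exact_mod_cast hh
    omega
  have h1 : ((d : ℤ) - 2) / (h : ℤ) + 1 = ((d : ℤ) - 2 + 1 * h) / (h : ℤ) :=
    (Int.add_mul_ediv_right _ _ hhz).symm
  rw [h1]
  unfold q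
  rw [Int.natCast_div]
  congr 1
  omega

theorem v1_eq {n h p : ℕ} (hn : 0 < n) (hh : 3 ≤ h) (hp : p.Prime) (hpn : p ∣ n)
    (hopt : ∀ d, d ∣ n → d ≠ p → q h d * p < q h p * d) :
    v1 n h = ((q h p * (n / p) : ℕ) : ℤ) := by
  have hg : IsGreatest {z : ℤ | ∃ d : ℕ, d ∣ n ∧
      z = (((d : ℤ) - 2) / (h : ℤ) + 1) * ((n : ℤ) / (d : ℤ))}
      ((q h p * (n / p) : ℕ) : ℤ) := by
    refine ⟨⟨p, hpn, ?_⟩, ?_⟩
    · rw [coef_eq hh]
      push_cast
      rfl
    · rintro z ⟨d, hd, rfl⟩
      rw [coef_eq hh, ← Int.natCast_div, ← Nat.cast_mul, Nat.cast_le]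
      by_cases hdp : d = p
      · rw [hdp]
      · have h1 := hopt d hd hdp
        obtain ⟨e, he⟩ := hd
        obtain ⟨m, hm⟩ := hpn
        have hd0 : 0 < d := Nat.pos_of_ne_zero (by rintro rfl; simp at he; omega)
        have e1 : n / d = e := by rw [he]; exact Nat.mul_div_cancel_left _ hd0
        have e2 : n / p = m := by rw [hm]; exact Nat.mul_div_cancel_left _ hp.pos
        rw [e1, e2]
        have h2 : q h d * e * (d * p) ≤ q h p * m * (d * p) := by
          calc q h d * e * (d * p) = (q h d * p) * (d * e) := by ring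
            _ = (q h d * p) * n := by rw [← he]
            _ ≤ (q h p * d) * n := Nat.mul_le_mul_right _ h1.le
            _ = (q h p * d) * (p * m) := by rw [← hm]
            _ = q h p * m * (d * p) := by ring
        exact Nat.le_of_mul_le_mul_right h2 (Nat.mul_pos hd0 hp.pos)
  exact hg.csSup_eq

/-- Let `n ≥ 1` and `h ≥ 3`, and suppose that some divisor of `n` is neither `0` nor `1` modulo
`h`. Then there is a unique divisor `p` of `n` for which `(⌊(p-2)/h⌋+1)·(n/p)` is equal to
`v_1(n,h)`, it is a prime, and the subsets `A` of `ℤ/nℤ` of size `v_1(n,h)` with `hA ≠ ℤ/nℤ` are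
exactly the sets of all elements whose residue modulo `p` lies in an arithmetic progression of
`⌊(p-2)/h⌋+1` terms with nonzero difference in `ℤ/pℤ`. -/
theorem result (n h : ℕ) (hn : 1 ≤ n) (hh : 3 ≤ h)
    (hres : ∃ d : ℕ, d ∣ n ∧ d % h ≠ 0 ∧ d % h ≠ 1) :
    ∃ p : ℕ, p.Prime ∧ p ∣ n ∧
      v1 n h = (((p : ℤ) - 2) / (h : ℤ) + 1) * ((n : ℤ) / (p : ℤ)) ∧
      (∀ d : ℕ, d ∣ n →
        v1 n h = (((d : ℤ) - 2) / (h : ℤ) + 1) * ((n : ℤ) / (d : ℤ)) → d = p) ∧
      ∀ A : Finset (ZMod n),
        ((A.card : ℤ) = v1 n h ∧ sumset h A ≠ Set.univ) ↔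
          ∃ a δ : ZMod p, δ ≠ 0 ∧
            ∀ y, y ∈ A ↔ ∃ i : ℕ, i < (p - 2) / h + 1 ∧ (y.val : ZMod p) = a + i * δ := by
  classical
  haveI : NeZero n := ⟨by omega⟩
  have hcard : Fintype.card (ZMod n) = n := ZMod.card n
  obtain ⟨d0, hd0, h0, h1⟩ := hres
  obtain ⟨p, hp, hpn, hp2, hopt⟩ := exists_opt hh hn ⟨d0, hd0, by omega⟩
  haveI : Fact p.Prime := ⟨hp⟩
  have hv := v1_eq hn hh hp hpn hopt
  have hq : q h p = (p - 2) / h + 1 := by
    have h2 := coef_eq (d := p) hh
    have h3 := hp.two_le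
    have h4 : ((p : ℤ) - 2) / (h : ℤ) = (((p - 2) / h : ℕ) : ℤ) := by
      rw [Int.natCast_div]
      congr 1
      omega
    rw [h4] at h2
    exact_mod_cast h2.symm
  have hmem : ∀ (A : Finset (ZMod n)) (x : ZMod n),
      x ∈ sumset h A ↔ x ∈ N432.SignedCrit.sm A h := by
    intro A x
    rw [mem_sm_iff']
    rfl
  have hne : ∀ A : Finset (ZMod n), sumset h A ≠ Set.univ ↔ ∃ x, x ∉ N432.SignedCrit.sm A h := by
    intro A
    rw [Set.ne_univ_iff_exists_notMem]
    simp only [hmem]
  have hhom : ∀ (φ : ZMod n →+ ZMod p) (y : ZMod n), φ y = (y.val : ZMod p) * φ 1 := by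
    intro φ y
    conv_lhs => rw [← ZMod.natCast_zmod_val y, ← nsmul_one, map_nsmul, nsmul_eq_mul]
  refine ⟨p, hp, hpn, ?_, ?_, ?_⟩
  · rw [hv, coef_eq hh]
    push_cast
    rfl
  · intro d hd hvd
    by_contra hdp
    have h2 := hopt d hd hdp
    rw [hv, coef_eq hh, ← Int.natCast_div, ← Nat.cast_mul, Nat.cast_inj] at hvd
    obtain ⟨e, he⟩ := hd
    obtain ⟨m, hm⟩ := hpn
    have hd0 : 0 < d := Nat.pos_of_ne_zero (by rintro rfl; simp at he; omega)
    have e1 : n / d = e := by rw [he]; exact Nat.mul_div_cancel_left _ hd0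
    have e2 : n / p = m := by rw [hm]; exact Nat.mul_div_cancel_left _ hp.pos
    rw [e1, e2] at hvd
    have h3 : (q h d * p) * n = (q h p * d) * n := by
      calc (q h d * p) * n = (q h d * p) * (d * e) := by rw [← he]
        _ = (q h d * e) * (d * p) := by ring
        _ = (q h p * m) * (d * p) := by rw [hvd]
        _ = (q h p * d) * (p * m) := by ring
        _ = (q h p * d) * n := by rw [← hm]
    have h4 := Nat.eq_of_mul_eq_mul_right hn h3
    omega
  · intro A
    rw [hne]
    constructor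
    · rintro ⟨hA, x, hx⟩
      rw [hv] at hA
      have hA' : A.card = q h p * (Fintype.card (ZMod n) / p) := by
        rw [hcard]
        exact_mod_cast hA
      obtain ⟨φ, hφ, a, δ, hδ, hst⟩ := structure_main hh hp (by rw [hcard]; exact hpn) hp2
        (by rw [hcard]; exact hopt) A hA' hx
      have hφ1 : φ 1 ≠ 0 := by
        intro h10
        obtain ⟨y, hy⟩ := hφ 1
        rw [hhom, h10, mul_zero] at hy
        exact zero_ne_one hy
      rw [← hq]
      refine ⟨a / φ 1, δ / φ 1, div_ne_zero hδ hφ1, fun y => ?_⟩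
      rw [hst]
      constructor
      · rintro ⟨i, hi, h5⟩
        refine ⟨i, hi, ?_⟩
        rw [hhom] at h5
        rw [← mul_div_assoc, ← add_div, ← h5, mul_div_assoc, div_self hφ1, mul_one]
      · rintro ⟨i, hi, h5⟩
        refine ⟨i, hi, ?_⟩
        rw [hhom, h5, add_mul, div_mul_cancel₀ _ hφ1, mul_assoc, div_mul_cancel₀ _ hφ1]
    · rintro ⟨a, δ, hδ, hA⟩
      rw [← hq] at hA
      let φ : ZMod n →+ ZMod p := (ZMod.castHom hpn (ZMod p)).toAddMonoidHom
      have hφ1 : φ 1 = 1 := map_one (ZMod.castHom hpn (ZMod p))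
      have hφ : ∀ y, φ y = (y.val : ZMod p) := by
        intro y
        rw [hhom, hφ1, mul_one]
      have hsurj : Function.Surjective φ := ZMod.castHom_surjective hpn
      refine ⟨?_, converse hh hp φ hsurj a δ hδ A (fun y hy => by
        obtain ⟨i, hi, h5⟩ := (hA y).1 hy
        exact ⟨i, hi, by rw [hφ, h5]⟩)⟩
      rw [hv]
      norm_cast
      -- the size of the preimage of a progression
      have hfib := card_fiber φ φ.ker (fun x => (AddMonoidHom.mem_ker).symm) A (by
        intro x hx k hk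
        rw [hA, ← hφ] at hx ⊢
        obtain ⟨i, hi, hx⟩ := hx
        refine ⟨i, hi, ?_⟩
        rw [map_add, AddMonoidHom.mem_ker.1 hk, add_zero, hx])
      have hall := card_fiber φ φ.ker (fun x => (AddMonoidHom.mem_ker).symm) Finset.univ
        (fun _ _ _ _ => Finset.mem_univ _)
      rw [Finset.card_univ, Finset.image_univ_of_surjective hsurj, Finset.card_univ, ZMod.card,
        ZMod.card] at hall
      have hqp : q h p ≤ p := by
        have h5 : h * q h p ≤ p + h - 2 := Nat.mul_div_le _ _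
        by_contra hcon
        push Not at hcon
        have h6 : h * (p + 1) ≤ h * q h p := Nat.mul_le_mul_left _ hcon
        have h7 : h * (p + 1) = h * p + h := by ring
        have h8 : p ≤ h * p := Nat.le_mul_of_pos_left _ (by omega)
        omega
      have himg : (A.image φ).card = q h p := by
        have : A.image φ = (Finset.range (q h p)).image (fun i : ℕ => a + (i : ZMod p) * δ) := by
          ext z
          rw [Finset.mem_image, Finset.mem_image]
          constructor
          · rintro ⟨y, hy, rfl⟩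
            obtain ⟨i, hi, hi2⟩ := (hA y).1 hy
            exact ⟨i, Finset.mem_range.2 hi, by rw [hφ, hi2]⟩
          · rintro ⟨i, hi, rfl⟩
            obtain ⟨y, hy⟩ := hsurj (a + (i : ZMod p) * δ)
            exact ⟨y, (hA y).2 ⟨i, Finset.mem_range.1 hi, by rw [← hφ, hy]⟩, hy⟩
        rw [this, Finset.card_image_of_injOn, Finset.card_range]
        intro i hi j hj hij
        rw [Finset.coe_range, Set.mem_Iio] at hi hj
        have h5 : (i : ZMod p) = j := mul_right_cancel₀ hδ (add_left_cancel hij)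
        rw [ZMod.natCast_eq_natCast_iff', Nat.mod_eq_of_lt (by omega),
          Nat.mod_eq_of_lt (by omega)] at h5
        exact h5
      have hnp : n / p = (Pool.Agent.Helper450.Kneser.fs φ.ker).card := by
        exact Nat.div_eq_of_eq_mul_right hp.pos hall
      rw [hfib, himg, hnp]

end Pool.Agent.Results.MP_ff195a_co.ResidueCase
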